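import Pool.Agent.Helper13.RM.TDefs
import Pool.Agent.Helper13.RM.CDefs

/-!
# Cycles of one dimension and their classes over a finite field: definitions
-/

set_option autoImplicit false

open CategoryTheory AlgebraicGeometry Pool.Agent.Y116.UV Pool.Agent.Q193.LT

universe u v

namespace Pool.Agent.Helper10.CY

/-- The Chow groups `CH X = CH_i(X)` of cycles of one dimension `i`, the `ℓ`-adic homology groups
`H X = H_{2i}(X̄, ℚ_ℓ(i))` (`Ω` is the field `ℚ_ℓ`) with the operation of the Frobenius, and the cycle class
maps. -/
structure CycleData (k : Type) [Field k] (Ω : Type) [Field Ω] where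
  /-- `CH_i(X)` -/
  CH : Sch k → Type u
  [cgrp : ∀ X, AddCommGroup (CH X)]
  /-- `H_{2i}(X̄, ℚ_ℓ(i))` -/
  H : Sch k → Type v
  [hgrp : ∀ X, AddCommGroup (H X)]
  [hmod : ∀ X, Module Ω (H X)]
  /-- the Frobenius -/
  frob : ∀ X, H X →ₗ[Ω] H X
  /-- the cycle class map -/
  cl : ∀ X, CH X →+ H X

attribute [instance] CycleData.cgrp CycleData.hgrp CycleData.hmod

variable {k Ω : Type} [Field k] [Field Ω]

/-- The subspace of the linear combinations of classes of cycles. -/
def Alg (D : CycleData.{u, v} k Ω) (X : Sch k) : Submodule Ω (D.H X) :=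
  Submodule.span Ω (Set.range (D.cl X))

/-- The map `cl_i` is surjective onto the invariants of the Frobenius. -/
def Surj (D : CycleData.{u, v} k Ω) (X : Sch k) : Prop :=
  ∀ e : D.H X, D.frob X e = e → e ∈ Alg D X

/-- `SS_i(X)`: the eigenvalue one of the Frobenius on `H_{2i}(X̄, ℚ_ℓ(i))` is semisimple. -/
def SS (D : CycleData.{u, v} k Ω) (X : Sch k) : Prop :=
  ∀ e : D.H X, D.frob X (D.frob X e - e) = D.frob X e - e → D.frob X e = e

/-- `e` belongs to the generalised eigenspace of the Frobenius for the eigenvalue one. -/
def IsGen (D : CycleData.{u, v} k Ω) (X : Sch k) (e : D.H X) : Prop :=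
  ∃ m : ℕ, ((D.frob X - 1) ^ m) e = 0

/-- A homomorphism of Chow groups and `ℓ`-adic homology groups which is compatible with the cycle
class maps and the Frobenius. -/
structure Hm (D : CycleData.{u, v} k Ω) (X Y : Sch k) where
  f : D.CH X →+ D.CH Y
  g : D.H X →ₗ[Ω] D.H Y
  cl : ∀ x, D.cl Y (f x) = g (D.cl X x)
  frob : ∀ x, D.frob Y (g x) = g (D.frob X x)

/-- Known properties of cycles and `ℓ`-adic homology of separated schemes of finite type over a finite
field, for cycles of one dimension: the groups `H X` are finite-dimensional, the classes of cycles are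
invariant; isomorphisms, the empty scheme; for a closed subscheme `Z` of `X` and its complement `U` the
restriction `CH_i(X) → CH_i(U)` is surjective, and `H_{2i}(Z) → H_{2i}(X) → H_{2i}(U)` is exact. -/
structure IsTheory (D : CycleData.{u, v} k Ω) : Prop where
  finite : ∀ X, FT True X → FiniteDimensional Ω (D.H X)
  frob_cl : ∀ X x, D.frob X (D.cl X x) = D.cl X x
  iso : ∀ {X Y : Sch k}, FT True X → Nonempty (X ≅ Y) →
    ∃ s : Hm D X Y, Function.Bijective s.f ∧ Function.Bijective s.g
  empty : ∀ X : Sch k, IsEmpty X.left → Subsingleton (D.H X)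
  localization : ∀ {Z X U : Sch k} (a : Z ⟶ X) (b : U ⟶ X), FT True X → IsTriple a b →
    ∃ (s : Hm D Z X) (t : Hm D X U), Function.Surjective t.f ∧ Function.Exact s.g t.g

/-- The homomorphism `t` is surjective on cycles, and the cycles `z_l` are mapped to zero. -/
def Kills {D : CycleData.{u, v} k Ω} {X V : Sch k} (t : Hm D X V) {r : ℕ} (z : Fin r → D.CH X) :
    Prop :=
  Function.Surjective t.f ∧ ∀ l, t.f (z l) = 0

/-- Further known properties, for cycles of dimension `i`: the restriction to an open subscheme is
surjective on cycles (`restrict`); if `X` is integral of dimension larger than `i` then finitely many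
cycles of dimension `i` are zero on a nonempty open subscheme `V` (the complement of their supports;
`support`); if the dimension of `X` is at most `i` then the generalised eigenspace is spanned by the
classes of the components of dimension `i` (`small`). -/
structure IsCycle (D : CycleData.{u, v} k Ω) (i : ℕ) : Prop where
  theory : IsTheory D
  restrict : ∀ {U X : Sch k} (b : U ⟶ X), FT True X → IsOpenImmersion b.left →
    ∃ t : Hm D X U, Function.Surjective t.f
  support : ∀ X : Sch k, FT True X → IsIntegral X.left → ¬ topologicalKrullDim X.left ≤ i →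
    ∀ (r : ℕ) (z : Fin r → D.CH X), ∃ (V : Sch k) (b : V ⟶ X) (t : Hm D X V),
      IsOpenImmersion b.left ∧ FT True V ∧ Nonempty V.left ∧ Kills t z
  small : ∀ X : Sch k, FT True X → topologicalKrullDim X.left ≤ i →
    ∀ e : D.H X, IsGen D X e → e ∈ Alg D X

end Pool.Agent.Helper10.CY
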