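import Pool.Agent.Helper10.CY.Defs
import Pool.Agent.Helper13.RM.CList
import Pool.Agent.Helper13.RM.CApp

/-!
# Cycles of one dimension and smooth moduli spaces of planar configurations
-/

set_option autoImplicit false

open CategoryTheory AlgebraicGeometry Pool.Agent.Y116.UV Pool.Agent.Q193.LT
  Pool.Agent.Q282.UK Pool.Agent.Helper3.GU Pool.Agent.Helper13.RM Polynomial

universe u v

namespace Pool.Agent.Helper10.CY

section linear

variable {Ω : Type} [Field Ω] {A B C : Type v} [AddCommGroup A] [Module Ω A] [AddCommGroup B]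
  [Module Ω B] [AddCommGroup C] [Module Ω C]

lemma aeval_comm {s : A →ₗ[Ω] B} {N : A →ₗ[Ω] A} {N' : B →ₗ[Ω] B} (h : ∀ x, N' (s x) = s (N x))
    (p : Polynomial Ω) (x : A) : s (aeval N p x) = aeval N' p (s x) := by
  induction p using Polynomial.induction_on' generalizing x with
  | add p q hp hq => simp only [map_add, LinearMap.add_apply, hp, hq]
  | monomial n a =>
    rw [← C_mul_X_pow_eq_monomial, map_mul, map_mul, aeval_C, aeval_C, map_pow, map_pow, aeval_X,
      aeval_X]
    change s (algebraMap Ω (Module.End Ω A) a ((N ^ n) x)) =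
      algebraMap Ω (Module.End Ω B) a ((N' ^ n) (s x))
    rw [Module.algebraMap_end_apply, Module.algebraMap_end_apply, map_smul]
    congr 1
    induction n with
    | zero => rfl
    | succ n ih => rw [pow_succ', pow_succ', Module.End.mul_apply, Module.End.mul_apply, ← ih, h]

/-- Generalised eigenspaces are exact. -/
lemma gen_exact [FiniteDimensional Ω A] {s : A →ₗ[Ω] B} {t : B →ₗ[Ω] C} (hst : Function.Exact s t)
    {N : A →ₗ[Ω] A} {N' : B →ₗ[Ω] B} (h : ∀ x, N' (s x) = s (N x)) {e : B} {m : ℕ}
    (he : (N' ^ m) e = 0) (ht : t e = 0) : ∃ a, (∃ n : ℕ, (N ^ n) a = 0) ∧ s a = e := by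
  obtain ⟨a, rfl⟩ := (hst e).1 ht
  have h0 : N.charpoly ≠ 0 := N.charpoly_monic.ne_zero
  obtain ⟨q, hq, hq'⟩ := Polynomial.exists_eq_pow_rootMultiplicity_mul_and_not_dvd _ h0 0
  rw [C_0, sub_zero] at hq hq'
  set n := rootMultiplicity 0 N.charpoly
  have hc : IsCoprime ((Polynomial.X : Polynomial Ω) ^ m) q :=
    ((irreducible_X.coprime_iff_not_dvd).2 hq').pow_left
  obtain ⟨u, w, huw⟩ := hc
  refine ⟨aeval N (w * q) a, ⟨n, ?_⟩, ?_⟩
  · have h1 : (N ^ n) (aeval N (w * q) a) = aeval N (Polynomial.X ^ n * (w * q)) a := by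
      rw [map_mul (aeval N) (Polynomial.X ^ n), map_pow, aeval_X]
      rfl
    have h2 : (Polynomial.X : Polynomial Ω) ^ n * (w * q) = w * N.charpoly := by
      conv_rhs => rw [hq]
      ring
    rw [h1, h2, map_mul, LinearMap.aeval_self_charpoly, mul_zero]
    rfl
  · rw [aeval_comm h]
    have h1 : w * q = 1 - u * Polynomial.X ^ m := by rw [← huw]; ring
    rw [h1, map_sub, map_one, map_mul, map_pow, aeval_X, LinearMap.sub_apply,
      Module.End.mul_apply, he, map_zero, sub_zero]
    rfl

end linear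

variable {k Ω : Type} [Field k] [Field Ω] {D : CycleData.{u, v} k Ω} {i : ℕ}

/-- The generalised eigenspace is spanned by classes of cycles. -/
def Full (D : CycleData.{u, v} k Ω) (X : Sch k) : Prop := ∀ e, IsGen D X e → e ∈ Alg D X

lemma frob_alg (hD : IsCycle D i) {X : Sch k} {e : D.H X} (h : e ∈ Alg D X) : D.frob X e = e := by
  induction h using Submodule.span_induction with
  | mem x hx =>
    obtain ⟨z, rfl⟩ := hx
    exact hD.theory.frob_cl X z
  | zero => exact map_zero _
  | add x y _ _ hx hy => rw [map_add, hx, hy]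
  | smul c x _ hx => rw [map_smul, hx]

lemma full_iff (hD : IsCycle D i) (X : Sch k) : Full D X ↔ Surj D X ∧ SS D X := by
  constructor
  · intro h
    refine ⟨fun e he => h e ⟨1, ?_⟩, fun e he => frob_alg hD (h e ⟨2, ?_⟩)⟩
    · rw [pow_one, LinearMap.sub_apply, he]
      exact sub_self e
    · rw [pow_two, Module.End.mul_apply]
      change D.frob X (D.frob X e - e) - (D.frob X e - e) = 0
      rw [he, sub_self]
  · rintro ⟨h1, h2⟩ e ⟨m, hm⟩
    apply h1
    induction m with
    | zero =>
      rw [pow_zero, Module.End.one_apply] at hm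
      rw [hm, map_zero]
    | succ m ih =>
      rcases m with _ | m
      · rw [pow_one, LinearMap.sub_apply, sub_eq_zero] at hm
        exact hm
      · apply ih
        -- `y = N ^ m e` satisfies `N (N y) = 0`, so `N y = 0`
        set y := ((D.frob X - 1) ^ m) e with hy
        have h3 : (D.frob X - 1) ((D.frob X - 1) y) = 0 := by
          rw [pow_succ', pow_succ', Module.End.mul_apply, Module.End.mul_apply] at hm
          exact hm
        have h4 : D.frob X y = y := by
          apply h2
          have h5 : D.frob X (D.frob X y - y) - (D.frob X y - y) = 0 := h3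
          exact sub_eq_zero.1 h5
        rw [pow_succ', Module.End.mul_apply]
        change D.frob X y - y = 0
        rw [h4, sub_self]

lemma Hm.sub {X Y : Sch k} (s : Hm D X Y) (x : D.H X) :
    (D.frob Y - 1) (s.g x) = s.g ((D.frob X - 1) x) := by
  change D.frob Y (s.g x) - s.g x = s.g (D.frob X x - x)
  rw [s.frob, map_sub]

lemma Hm.pow {X Y : Sch k} (s : Hm D X Y) (m : ℕ) (x : D.H X) :
    ((D.frob Y - 1) ^ m) (s.g x) = s.g (((D.frob X - 1) ^ m) x) := by
  induction m with
  | zero => rfl
  | succ m ih =>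
    rw [pow_succ', pow_succ', Module.End.mul_apply, Module.End.mul_apply, ih, s.sub]

lemma Hm.gen {X Y : Sch k} (s : Hm D X Y) {x : D.H X} (h : IsGen D X x) : IsGen D Y (s.g x) := by
  obtain ⟨m, hm⟩ := h
  exact ⟨m, by rw [s.pow, hm, map_zero]⟩

lemma Hm.alg {X Y : Sch k} (s : Hm D X Y) {x : D.H X} (h : x ∈ Alg D X) : s.g x ∈ Alg D Y := by
  induction h using Submodule.span_induction with
  | mem x hx =>
    obtain ⟨z, rfl⟩ := hx
    rw [← s.cl]
    exact Submodule.subset_span ⟨_, rfl⟩
  | zero => rw [map_zero]; exact Submodule.zero_mem _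
  | add x y _ _ hx hy => rw [map_add]; exact Submodule.add_mem _ hx hy
  | smul c x _ hx => rw [map_smul]; exact Submodule.smul_mem _ _ hx

lemma Hm.lift {X Y : Sch k} (s : Hm D X Y) (hs : Function.Surjective s.f) {y : D.H Y}
    (h : y ∈ Alg D Y) : ∃ x ∈ Alg D X, s.g x = y := by
  induction h using Submodule.span_induction with
  | mem x hx =>
    obtain ⟨z, rfl⟩ := hx
    obtain ⟨z, rfl⟩ := hs z
    exact ⟨_, Submodule.subset_span ⟨z, rfl⟩, (s.cl z).symm⟩
  | zero => exact ⟨0, Submodule.zero_mem _, map_zero _⟩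
  | add x y _ _ hx hy =>
    obtain ⟨a, ha, rfl⟩ := hx
    obtain ⟨b, hb, rfl⟩ := hy
    exact ⟨a + b, Submodule.add_mem _ ha hb, map_add _ _ _⟩
  | smul c x _ hx =>
    obtain ⟨a, ha, rfl⟩ := hx
    exact ⟨c • a, Submodule.smul_mem _ _ ha, map_smul _ _ _⟩

lemma ft_clo {R : Type} [CommRing R] {sep : Prop} {Z X : Sch R} (f : Z ⟶ X)
    (hf : IsClosedImmersion f.left) (hX : FT sep X) : FT sep Z where
  locallyOfFiniteType := by
    have h := hX.locallyOfFiniteType
    rw [← Over.w f]
    infer_instance
  quasiCompact := by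
    have h := hX.quasiCompact
    rw [← Over.w f]
    infer_instance
  separated hs := by
    have h := hX.separated hs
    rw [← Over.w f]
    infer_instance

/-- **Cutting.** -/
theorem cut_full (hD : IsCycle D i) : Cut True (Full D) where
  iso {X Y} hX e h := by
    obtain ⟨s, h1, h2⟩ := hD.theory.iso hX e
    rintro y ⟨m, hm⟩
    obtain ⟨x, rfl⟩ := h2.2 y
    refine s.alg (h x ⟨m, h2.1 ?_⟩)
    rw [map_zero, ← s.pow, hm]
  empty X hX e _ := by
    have := hD.theory.empty X hX
    rw [Subsingleton.elim e 0]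
    exact Submodule.zero_mem _
  total {Z X U} a b hX ht hZ hU := by
    have hft : FT True Z := ft_clo a ht.closed hX
    have := hD.theory.finite Z hft
    obtain ⟨s, t, h1, h2⟩ := hD.theory.localization a b hX ht
    rintro e ⟨m, hm⟩
    obtain ⟨x, hx, hxe⟩ := t.lift h1 (hU (t.g e) (t.gen ⟨m, hm⟩))
    have h3 : t.g (e - x) = 0 := by rw [map_sub, hxe, sub_self]
    have h4 : ((D.frob X - 1) ^ (m + 1)) (e - x) = 0 := by
      have h5 : (D.frob X - 1) x = 0 := by
        change D.frob X x - x = 0
        rw [frob_alg hD hx, sub_self]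
      have h6 : ((D.frob X - 1) ^ (m + 1)) e = 0 := by
        rw [pow_succ', Module.End.mul_apply, hm, map_zero]
      have h7 : ((D.frob X - 1) ^ (m + 1)) x = 0 := by
        rw [pow_succ, Module.End.mul_apply, h5, map_zero]
      rw [map_sub, h6, h7, sub_zero]
    obtain ⟨z, hz, hze⟩ := gen_exact h2 (fun x => s.sub x) h4 h3
    have h5 : e = s.g z + x := by rw [hze, sub_add_cancel]
    rw [h5]
    exact Submodule.add_mem _ (s.alg (hZ z hz)) hx

/-- Without classes of cycles, surjectivity implies that there are no generalised eigenvectors. -/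
lemma full_of_zero {X : Sch k} (h : Surj D X) (h0 : ∀ z, D.cl X z = 0) : Full D X := by
  have hA : Alg D X = ⊥ := by
    rw [eq_bot_iff, Alg, Submodule.span_le]
    rintro _ ⟨z, rfl⟩
    exact h0 z
  rintro e ⟨m, hm⟩
  rw [hA, Submodule.mem_bot]
  induction m with
  | zero => exact hm
  | succ m ih =>
    apply ih
    have h1 : ((D.frob X - 1) ^ m) e ∈ Alg D X := by
      apply h
      rw [pow_succ', Module.End.mul_apply] at hm
      exact sub_eq_zero.1 hm
    rwa [hA, Submodule.mem_bot] at h1

lemma zero_of_surj {X Y : Sch k} (s : Hm D X Y) (hs : Function.Surjective s.f)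
    (h : ∀ z, D.cl X z = 0) (z : D.CH Y) : D.cl Y z = 0 := by
  obtain ⟨z, rfl⟩ := hs z
  rw [s.cl, h, map_zero]

/-- The classes of cycles vanish on a nonempty open subscheme. -/
lemma exists_zero (hD : IsCycle D i) {X : Sch k} (hX : FT True X) (hi : IsIntegral X.left)
    (hd : ¬ topologicalKrullDim X.left ≤ i) : ∃ (V : Sch k) (b : V ⟶ X), IsOpenImmersion b.left ∧
      FT True V ∧ Nonempty V.left ∧ ∀ z, D.cl V z = 0 := by
  have := hD.theory.finite X hX
  have hfg : (Submodule.span Ω (Set.range (D.cl X))).FG := IsNoetherian.noetherian _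
  obtain ⟨F, hF, hspan⟩ := Submodule.fg_span_iff_fg_span_finset_subset _ |>.1 hfg
  choose! z hz using fun (x : D.H X) (hx : x ∈ F) => hF (Finset.mem_coe.2 hx)
  let w : Fin F.card → D.CH X := fun l => z (F.equivFin.symm l).1
  obtain ⟨V, b, t, h1, h2, h3, h4, h5⟩ := hD.support X hX hi hd F.card w
  refine ⟨V, b, h1, h2, h3, fun y => ?_⟩
  obtain ⟨x, rfl⟩ := h4 y
  have h6 : D.cl X x ∈ Submodule.span Ω (F : Set (D.H X)) := by
    rw [← hspan]
    exact Submodule.subset_span ⟨x, rfl⟩
  rw [t.cl]
  generalize D.cl X x = y at h6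
  induction h6 using Submodule.span_induction with
  | mem c hc =>
    have hc' : c ∈ F := Finset.mem_coe.1 hc
    rw [← hz c hc', ← t.cl]
    have h7 := h5 (F.equivFin ⟨c, hc'⟩)
    change t.f (z (F.equivFin.symm (F.equivFin ⟨c, hc'⟩)).1) = 0 at h7
    rw [Equiv.symm_apply_apply] at h7
    rw [h7, map_zero]
  | zero => exact map_zero _
  | add c d _ _ hc hd => rw [map_add, hc, hd, add_zero]
  | smul a c _ hc => rw [map_smul, hc, smul_zero]

/-- **Surjectivity for the smooth moduli spaces is sufficient.** -/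
theorem full_of_moduli [PerfectField k] (hR : Presents ({0, 1} : Set k)) (hD : IsCycle D i)
    (d : WithBot ℕ∞)
    (h : ∀ (m : ℕ) (M : Matroid (Fin 4 ⊕ Fin m)), SmoothMod k d M → Surj D (modS k M))
    (X : Sch k) (hX : FT True X) (hd : topologicalKrullDim X.left ≤ d) : Full D X := by
  refine of_pieces (cut_dim (cut_full hD) d) (fun B _ _ _ _ => ?_) X hX hd
  obtain ⟨w, hw, hs⟩ := generic_smooth_field (k := k) B
  have hdm : IsDomain (Localization.Away w) :=
    IsLocalization.isDomain_localization (powers_le_nonZeroDivisors_of_noZeroDivisors hw)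
  have hft : Algebra.FiniteType k (Localization.Away w) := ft_loc _ _
  let W : Sch k := aff k (Localization.Away w)
  have hi : IsIntegral W.left := by
    change IsIntegral (Spec (CommRingCat.of (Localization.Away w)))
    rw [affine_isIntegral_iff]
    exact hdm
  have hW : FT True W := ft_aff True
  let o : W ⟶ aff k B := affMap (IsScalarTower.toAlgHom k B (Localization.Away w))
  have ho : IsOpenImmersion o.left :=
    Scheme.isOpenImmersion_SpecMap_localizationAway (R := .of B) w
  by_cases hdim : topologicalKrullDim W.left ≤ i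
  · exact ⟨W, o, ho, inferInstance, fun _ => hD.small W hW hdim⟩
  obtain ⟨V, b, h1, h2, h3, h4⟩ := exists_zero hD hW hi hdim
  have : IsIntegral V.left := isIntegral_of_isOpenImmersion b.left
  obtain ⟨n, M, s, g1, g2, g3, g4⟩ := exists_open_mod (sep := True) hR V h2
  refine ⟨modS k M, s ≫ b ≫ o, ?_, g4, fun hdM => ?_⟩
  · change IsOpenImmersion (s.left ≫ b.left ≫ o.left)
    infer_instance
  · have hsb : IsOpenImmersion (s ≫ b).left := by
      change IsOpenImmersion (s.left ≫ b.left)
      infer_instance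
    have hM : SmoothMod k d M := ⟨g1, g2, isDomain_of_open s g3 g4,
      smooth_aff_iff.1 (smooth_of_open (s ≫ b) hsb (smooth_aff_iff.2 hs)), hdM⟩
    obtain ⟨t, ht⟩ := hD.restrict s h2 g3
    exact full_of_zero (h n M hM) (zero_of_surj t ht h4)

end Pool.Agent.Helper10.CY
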